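import Pool.Agent.Helper42.KS.Goals

set_option autoImplicit false

/-! Packet BG -/

namespace Pool.Agent.Helper42.KS.PkBG

open MeasureTheory Filter
open scoped ENNReal NNReal

theorem norm_ee (t : ℝ) : ‖ee t‖ = 1 := by
  unfold ee
  exact Complex.norm_exp_ofReal_mul_I _

theorem norm_Wv_le (k R l : ℕ) {d : ℕ} (y : Fin (l + 1) → Fin d → ℤ) (α : Fin l → ℝ) (ν : Fin d) :
    ‖Wv k R l y α ν‖ ≤ R := by
  unfold Wv
  refine (norm_sum_le _ _).trans ?_
  have h1 : ∀ x ∈ (Finset.Ico 0 (R : ℤ)).filter (fun x => ∀ i, y i ν ≤ x),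
      ‖ee (∑ i : Fin l, α i * (((x - y i.succ ν) ^ k - (x - y 0 ν) ^ k : ℤ) : ℝ))‖ = 1 :=
    fun x _ => norm_ee _
  rw [Finset.sum_congr rfl h1, Finset.sum_const, nsmul_eq_mul, mul_one]
  have h2 := Finset.card_filter_le (Finset.Ico 0 (R : ℤ)) (fun x => ∀ i, y i ν ≤ x)
  have h3 : (Finset.Ico 0 (R : ℤ)).card = R := by simp
  rw [h3] at h2
  exact_mod_cast h2

theorem cont_Wv (k R l : ℕ) {d : ℕ} (y : Fin (l + 1) → Fin d → ℤ) (ν : Fin d) :
    Continuous fun α : Fin l → ℝ => Wv k R l y α ν := by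
  unfold Wv ee
  fun_prop

theorem prod_small {d : ℕ} {R σ : ℝ} {S : ℕ} {q : ℝ} (hR : 1 ≤ R) (hσ : 0 < σ) (w : Fin d → ℝ)
    (hw0 : ∀ ν, 0 ≤ w ν) (hw : ∀ ν, w ν ≤ R) (hq : q ≤ σ * S)
    (hS : S ≤ (Finset.univ.filter (fun ν => w ν < R ^ (1 - σ))).card) :
    ∏ ν, w ν ≤ R ^ d * R ^ (-q) := by
  have hR0 : 0 < R := by linarith
  have h1 : ∀ ν, w ν ≤ R * (if w ν < R ^ (1 - σ) then R ^ (-σ) else 1) := by
    intro ν
    by_cases h : w ν < R ^ (1 - σ)
    · rw [if_pos h]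
      have : R * R ^ (-σ) = R ^ (1 - σ) := by
        rw [sub_eq_add_neg, Real.rpow_add hR0, Real.rpow_one]
      rw [this]
      exact h.le
    · rw [if_neg h, mul_one]
      exact hw ν
  have h2 : R ^ (-σ) ≤ 1 := Real.rpow_le_one_of_one_le_of_nonpos hR (by linarith)
  have h3 : 0 ≤ R ^ (-σ) := by positivity
  calc ∏ ν, w ν ≤ ∏ ν, (R * (if w ν < R ^ (1 - σ) then R ^ (-σ) else 1)) :=
        Finset.prod_le_prod (fun ν _ => hw0 ν) (fun ν _ => h1 ν)
    _ = R ^ d * (R ^ (-σ)) ^ (Finset.univ.filter (fun ν => w ν < R ^ (1 - σ))).card := by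
        rw [Finset.prod_mul_distrib, Finset.prod_const, Finset.card_univ, Fintype.card_fin,
          ← Finset.prod_filter, Finset.prod_const]
    _ ≤ R ^ d * (R ^ (-σ)) ^ S := by
        exact mul_le_mul_of_nonneg_left (pow_le_pow_of_le_one h3 h2 hS) (by positivity)
    _ ≤ R ^ d * R ^ (-q) := by
        gcongr
        rw [← Real.rpow_natCast, ← Real.rpow_mul hR0.le]
        exact Real.rpow_le_rpow_of_exponent_le hR (by linarith)

/-- the measure of the rich points -/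
theorem hull {l : ℕ} (A : Set ℝ) (V : ℝ) (hV : 0 ≤ V)
    (hA : volume (Set.Icc (0 : ℝ) 1 ∩ A) ≤ ENNReal.ofReal V) :
    ∃ T : Set (Fin l → ℝ), MeasurableSet T ∧ (∀ α ∈ Set.pi Set.univ
      (fun _ : Fin l => Set.Icc (0 : ℝ) 1), (∀ i, α i ∈ A) → α ∈ T) ∧
      volume T ≤ ENNReal.ofReal (V ^ l) := by
  refine ⟨Set.pi Set.univ fun _ => toMeasurable volume (Set.Icc (0 : ℝ) 1 ∩ A),
    MeasurableSet.univ_pi fun _ => measurableSet_toMeasurable _ _, ?_, ?_⟩
  · intro α hα hA i _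
    exact subset_toMeasurable _ _ ⟨hα i (Set.mem_univ _), hA i⟩
  · rw [volume_pi_pi]
    simp only [measure_toMeasurable, Finset.prod_const, Finset.card_univ, Fintype.card_fin]
    rw [ENNReal.ofReal_pow hV]
    gcongr

/-- integration of the pointwise bound -/
theorem integ {l : ℕ} {ι : Type*} (s : Finset ι) (f : ι → (Fin l → ℝ) → ℝ)
    (hf : ∀ i ∈ s, Continuous (f i)) (T : Set (Fin l → ℝ)) (hT : MeasurableSet T) (V c₁ c₂ : ℝ)
    (hV : 0 ≤ V) (hTV : volume T ≤ ENNReal.ofReal V) (hc₁ : 0 ≤ c₁)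
    (h1 : ∀ α ∈ Set.pi Set.univ (fun _ : Fin l => Set.Icc (0 : ℝ) 1), ∑ i ∈ s, f i α ≤ c₁ + c₂)
    (h2 : ∀ α ∈ Set.pi Set.univ (fun _ : Fin l => Set.Icc (0 : ℝ) 1), α ∉ T →
      ∑ i ∈ s, f i α ≤ c₂) :
    ∑ i ∈ s, ∫ α in Set.pi Set.univ (fun _ : Fin l => Set.Icc (0 : ℝ) 1), f i α ≤
      c₁ * V + c₂ := by
  set K : Set (Fin l → ℝ) := Set.pi Set.univ (fun _ : Fin l => Set.Icc (0 : ℝ) 1) with hK
  have hKc : IsCompact K := isCompact_univ_pi fun _ => isCompact_Icc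
  have hKm : MeasurableSet K := hKc.measurableSet
  have hKv : volume K = 1 := by
    rw [hK, volume_pi_pi]
    simp
  have hint : ∀ i ∈ s, IntegrableOn (f i) K := fun i hi =>
    (hf i hi).continuousOn.integrableOn_compact hKc
  rw [← integral_finsetSum s hint]
  have hfin : IsFiniteMeasure (volume.restrict K) := by
    constructor
    rw [Measure.restrict_apply_univ, hKv]
    exact ENNReal.one_lt_top
  have hi1 : Integrable (fun α => T.indicator (fun _ => c₁) α) (volume.restrict K) :=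
    (integrable_const c₁).indicator hT
  have hi2 : Integrable (fun _ : Fin l → ℝ => c₂) (volume.restrict K) := integrable_const c₂
  calc ∫ α in K, ∑ i ∈ s, f i α ≤ ∫ α in K, (T.indicator (fun _ => c₁) α + c₂) := by
        refine setIntegral_mono_on (integrable_finsetSum s hint) (hi1.add hi2) hKm ?_
        intro α hα
        by_cases hT' : α ∈ T
        · rw [Set.indicator_of_mem hT']
          exact h1 α hα
        · rw [Set.indicator_of_notMem hT', zero_add]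
          exact h2 α hα hT'
    _ = (∫ α in K, T.indicator (fun _ => c₁) α) + ∫ _ in K, c₂ := integral_add hi1 hi2
    _ ≤ c₁ * V + c₂ := by
        apply add_le_add
        · rw [integral_indicator hT, setIntegral_const, smul_eq_mul, mul_comm]
          gcongr
          rw [Measure.real]
          refine (ENNReal.toReal_le_toReal ?_ ENNReal.ofReal_ne_top).2 ?_ |>.trans
            (ENNReal.toReal_ofReal hV).le
          · exact ne_top_of_le_ne_top ENNReal.ofReal_ne_top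
              ((Measure.restrict_apply_le K T).trans hTV)
          · exact (Measure.restrict_apply_le K T).trans hTV
        · rw [integral_const, smul_eq_mul, Measure.real, Measure.restrict_apply_univ, hKv]
          simp

open Classical in
/-- the pointwise bound off the rich set -/
theorem point_bound (hPR : G_PR) {k R l d : ℕ} {E : Finset (Fin d → ℤ)} {s t σ q : ℝ} {S : ℕ}
    (hR : 1 ≤ R) (hs : 0 ≤ s) (ht : t ≤ 1) (hσ : 0 < σ) (hE : E ⊆ sbox d R) (α : Fin l → ℝ)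
    (i₀ : Fin l) (hα : ¬ rich k R s t (α i₀))
    (hWC : ∀ (y : Fin (l + 1) → Fin d → ℤ) (ν : Fin d),
      (R : ℝ) ^ (1 - σ) ≤ ‖Wv k R l y α ν‖ → res k R l s y α ν)
    (hq : q ≤ σ * S)
    (hX : ((R : ℝ) ^ (s + 1 - t)) ^ d * (R : ℝ) ^ S ≤ E.card * (R : ℝ) ^ (-q)) :
    ∑ y ∈ Fintype.piFinset (fun _ : Fin (l + 1) => E), ∏ ν, ‖Wv k R l y α ν‖ ≤
      (E.card : ℝ) ^ (l + 1) * (R : ℝ) ^ d * ((2 ^ (d + S) + 1) * (R : ℝ) ^ (-q)) := by
  have hR1 : (1 : ℝ) ≤ R := by exact_mod_cast hR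
  have hR0 : (0 : ℝ) < R := by linarith
  have hpr := hPR k R l d E s t α i₀ S hR hs ht hE hα
  have h1 : ∀ y ∈ Fintype.piFinset (fun _ : Fin (l + 1) => E), ∏ ν, ‖Wv k R l y α ν‖ ≤
      (R : ℝ) ^ d * (R : ℝ) ^ (-q) +
        (if (Finset.univ.filter (fun ν : Fin d => ¬ res k R l s y α ν)).card < S then
          (R : ℝ) ^ d else 0) := by
    intro y _
    by_cases h : S ≤ (Finset.univ.filter
        (fun ν : Fin d => ‖Wv k R l y α ν‖ < (R : ℝ) ^ (1 - σ))).card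
    · have h2 := prod_small hR1 hσ (fun ν => ‖Wv k R l y α ν‖) (fun ν => norm_nonneg _)
        (fun ν => norm_Wv_le k R l y α ν) hq (by convert h)
      refine h2.trans (le_add_of_nonneg_right ?_)
      split_ifs
      · positivity
      · exact le_rfl
    · have h2 : (Finset.univ.filter (fun ν : Fin d => ¬ res k R l s y α ν)).card < S := by
        refine lt_of_le_of_lt (Finset.card_le_card ?_) (not_le.1 h)
        intro ν hν
        rw [Finset.mem_filter] at hν ⊢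
        refine ⟨hν.1, ?_⟩
        by_contra hcon
        exact hν.2 (hWC y ν (not_lt.1 hcon))
      rw [if_pos h2]
      have h3 : ∏ ν, ‖Wv k R l y α ν‖ ≤ (R : ℝ) ^ d := by
        calc ∏ ν, ‖Wv k R l y α ν‖ ≤ ∏ _ν : Fin d, (R : ℝ) :=
              Finset.prod_le_prod (fun ν _ => norm_nonneg _) (fun ν _ => norm_Wv_le k R l y α ν)
          _ = (R : ℝ) ^ d := by simp
      have : 0 ≤ (R : ℝ) ^ d * (R : ℝ) ^ (-q) := by positivity
      linarith
  refine (Finset.sum_le_sum h1).trans ?_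
  rw [Finset.sum_add_distrib, Finset.sum_const, ← Finset.sum_filter, Finset.sum_const,
    nsmul_eq_mul, nsmul_eq_mul]
  have hcard : ((Fintype.piFinset (fun _ : Fin (l + 1) => E)).card : ℝ) =
      (E.card : ℝ) ^ (l + 1) := by
    rw [Fintype.card_piFinset, Finset.prod_const, Finset.card_univ, Fintype.card_fin]
    push_cast
    rfl
  rw [hcard]
  have h4 : (((Fintype.piFinset (fun _ : Fin (l + 1) => E)).filter
      (fun y => (Finset.univ.filter (fun ν : Fin d => ¬ res k R l s y α ν)).card < S)).card : ℝ) ≤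
      (E.card : ℝ) ^ (l + 1) * (2 ^ (d + S) * (R : ℝ) ^ (-q)) := by
    refine hpr.trans ?_
    calc (E.card : ℝ) ^ l * 2 ^ d * (2 * R : ℝ) ^ S * ((R : ℝ) ^ (s + 1 - t)) ^ d
        = (E.card : ℝ) ^ l * 2 ^ (d + S) * (((R : ℝ) ^ (s + 1 - t)) ^ d * (R : ℝ) ^ S) := by
          rw [mul_pow, pow_add]; ring
      _ ≤ (E.card : ℝ) ^ l * 2 ^ (d + S) * (E.card * (R : ℝ) ^ (-q)) := by gcongr
      _ = _ := by rw [pow_succ]; ring
  calc (E.card : ℝ) ^ (l + 1) * ((R : ℝ) ^ d * (R : ℝ) ^ (-q)) +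
        (((Fintype.piFinset (fun _ : Fin (l + 1) => E)).filter
      (fun y => (Finset.univ.filter (fun ν : Fin d => ¬ res k R l s y α ν)).card < S)).card : ℝ) *
          (R : ℝ) ^ d
      ≤ (E.card : ℝ) ^ (l + 1) * ((R : ℝ) ^ d * (R : ℝ) ^ (-q)) +
        ((E.card : ℝ) ^ (l + 1) * (2 ^ (d + S) * (R : ℝ) ^ (-q))) * (R : ℝ) ^ d := by gcongr
    _ = _ := by ring

theorem triv_bound {k R l d : ℕ} {E : Finset (Fin d → ℤ)} (α : Fin l → ℝ) :
    ∑ y ∈ Fintype.piFinset (fun _ : Fin (l + 1) => E), ∏ ν, ‖Wv k R l y α ν‖ ≤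
      (E.card : ℝ) ^ (l + 1) * (R : ℝ) ^ d := by
  have hcard : ((Fintype.piFinset (fun _ : Fin (l + 1) => E)).card : ℝ) =
      (E.card : ℝ) ^ (l + 1) := by
    rw [Fintype.card_piFinset, Finset.prod_const, Finset.card_univ, Fintype.card_fin]
    push_cast
    rfl
  calc ∑ y ∈ Fintype.piFinset (fun _ : Fin (l + 1) => E), ∏ ν, ‖Wv k R l y α ν‖
      ≤ ∑ _y ∈ Fintype.piFinset (fun _ : Fin (l + 1) => E), (R : ℝ) ^ d := by
        refine Finset.sum_le_sum fun y _ => ?_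
        calc ∏ ν, ‖Wv k R l y α ν‖ ≤ ∏ _ν : Fin d, (R : ℝ) :=
              Finset.prod_le_prod (fun ν _ => norm_nonneg _) (fun ν _ => norm_Wv_le k R l y α ν)
          _ = (R : ℝ) ^ d := by simp
    _ = (E.card : ℝ) ^ (l + 1) * (R : ℝ) ^ d := by
        rw [Finset.sum_const, nsmul_eq_mul, hcard]

/-- the exponents -/
theorem expo {k m κ δ s e : ℝ} (hk : 3 ≤ k) (hm : 1 ≤ m) (hκ : 0 < κ) (hm1 : 2 * k ≤ κ * (k - 2) * m)
    (hδ : (δ + s) * m ≤ k / 4) (hδ0 : 0 ≤ δ + s) (he : e ≤ 1 - κ) :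
    k / 2 ≤ (k - 2 * (1 - e + δ) - 2 * s) * (m - 1) - k * m * e := by
  have e1 : (k - 2 * (1 - e + δ) - 2 * s) * (m - 1) - k * m * e =
      (k - 2) * (m - 1) - e * ((k - 2) * m + 2) - 2 * (δ + s) * (m - 1) := by ring
  rw [e1]
  have h1 : e * ((k - 2) * m + 2) ≤ (1 - κ) * ((k - 2) * m + 2) := by
    apply mul_le_mul_of_nonneg_right he
    have : 0 ≤ (k - 2) * m := mul_nonneg (by linarith) (by linarith)
    linarith
  have h2 : 2 * (δ + s) * (m - 1) ≤ 2 * ((δ + s) * m) := by nlinarith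
  nlinarith

theorem thm : G_INT → G_WC → G_PR → G_ME → G_BG := by
  intro hINT hWC hPR hME k κ hk hκ hκ1
  have hk3 : (3 : ℝ) ≤ k := by exact_mod_cast hk
  obtain ⟨m0, hm0⟩ := exists_nat_ge (2 * k / (κ * (k - 2)))
  set l : ℕ := m0 + k ^ 2 with hl
  have hk2 : 9 ≤ k ^ 2 := by nlinarith
  have hl1 : 1 ≤ l := by omega
  set m : ℝ := (l : ℝ) + 1 with hm
  have hm1 : 1 ≤ m := by
    have : (0 : ℝ) ≤ l := by positivity
    linarith
  have hm0' : 0 < m := by linarith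
  have hmk : (k : ℝ) ^ 2 ≤ m := by
    rw [hm, hl]; push_cast
    have : (0 : ℝ) ≤ m0 := by positivity
    linarith
  have hmκ : 2 * k ≤ κ * (k - 2) * m := by
    have h1 : 0 < κ * ((k : ℝ) - 2) := mul_pos hκ (by linarith)
    rw [div_le_iff₀ h1] at hm0
    have h2 : (m0 : ℝ) ≤ m := by
      rw [hm, hl]; push_cast
      have : (0 : ℝ) ≤ (k : ℝ) ^ 2 := by positivity
      linarith
    calc 2 * (k : ℝ) ≤ m0 * (κ * (k - 2)) := hm0
      _ ≤ m * (κ * (k - 2)) := by gcongr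
      _ = _ := by ring
  set s : ℝ := k / (16 * m) with hs
  have hs0 : 0 < s := by positivity
  have hsm : s * m = k / 16 := by rw [hs]; field_simp
  have hs4 : s ≤ 1 / 4 := by
    rw [hs, div_le_div_iff₀ (by positivity) (by norm_num)]
    nlinarith
  set σ : ℝ := s / 2 ^ (k - 1) with hσ
  have hσ0 : 0 < σ := by positivity
  have hσs : 2 ^ (k - 1) * σ = s := by rw [hσ]; field_simp
  set S : ℕ := ⌈k * m / σ⌉₊ with hS
  have hqS : k * m ≤ σ * S := by
    have h1 : k * m / σ ≤ S := Nat.le_ceil _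
    rw [div_le_iff₀ hσ0] at h1
    linarith
  obtain ⟨C0, hC0⟩ := hME k s hk hs0 hs4
  set C : ℝ := max C0 1 with hC
  have hC1 : 1 ≤ C := le_max_right _ _
  have hCC : C0 ≤ C := le_max_left _ _
  obtain ⟨R1, hR1⟩ := hWC k σ hk hσ0 (by rw [hσs]; linarith)
  refine ⟨l, hl1, 8 * (l + 1) * (S + k * (l + 1)) + k + 1, fun d hd => ?_⟩
  have hd0 : 0 < d := by omega
  have hd0' : (0 : ℝ) < d := by exact_mod_cast hd0
  have hdD : 8 * m * (S + k * m) ≤ d := by
    have h1 : 8 * (l + 1) * (S + k * (l + 1)) ≤ d := by omega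
    have h2 : ((8 * (l + 1) * (S + k * (l + 1)) : ℕ) : ℝ) ≤ d := by exact_mod_cast h1
    push_cast at h2
    exact h2
  have ev1 : ∀ᶠ R : ℕ in atTop, (2 : ℝ) * (2 ^ (d + S) + 1) ≤ (R : ℝ) ^ (k * m * κ) :=
    ((tendsto_rpow_atTop (by positivity : (0 : ℝ) < k * m * κ)).comp
      tendsto_natCast_atTop_atTop).eventually_ge_atTop _
  have ev2 : ∀ᶠ R : ℕ in atTop, (2 : ℝ) * C ^ l ≤ (R : ℝ) ^ ((k : ℝ) / 2) :=
    ((tendsto_rpow_atTop (by positivity : (0 : ℝ) < (k : ℝ) / 2)).comp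
      tendsto_natCast_atTop_atTop).eventually_ge_atTop _
  obtain ⟨R0, hR0⟩ := eventually_atTop.1 (ev1.and (ev2.and (eventually_ge_atTop (max R1 2))))
  refine ⟨R0, fun R hR E hE hE1 hE2 => ?_⟩
  obtain ⟨hv1, hv2, hv3⟩ := hR0 R hR
  have hR2 : 2 ≤ R := (le_max_right _ _).trans hv3
  have hRR1 : R1 ≤ R := (le_max_left _ _).trans hv3
  have hRr : (2 : ℝ) ≤ R := by exact_mod_cast hR2
  have hRpos : (0 : ℝ) < R := by linarith
  have hRone : (1 : ℝ) ≤ R := by linarith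
  have hRlt : (1 : ℝ) < R := by linarith
  have hEpos : (0 : ℝ) < E.card := lt_of_lt_of_le (by positivity) hE1
  set e : ℝ := Real.logb R E.card / d with he
  have hed : (E.card : ℝ) = (R : ℝ) ^ (e * d) := by
    rw [he, div_mul_cancel₀ _ hd0'.ne', Real.rpow_logb hRpos hRlt.ne' hEpos]
  have he1 : 1 / (2 * (k : ℝ)) ≤ e := by
    rw [hed, Real.rpow_le_rpow_left_iff hRlt] at hE1
    have h1 : 1 / (2 * (k : ℝ)) * d ≤ e * d := by
      rw [one_div_mul_eq_div]; exact hE1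
    exact le_of_mul_le_mul_right h1 hd0'
  have he2 : e ≤ 1 - κ := by
    rw [hed, Real.rpow_le_rpow_left_iff hRlt] at hE2
    exact le_of_mul_le_mul_right hE2 hd0'
  set δ : ℝ := s + (S + k * m) / d with hδ
  have hSk : 0 ≤ (S + k * m) / (d : ℝ) := by positivity
  have hδ0 : 0 ≤ δ := by linarith
  have hSd : (S + k * m) / (d : ℝ) * m ≤ k / 8 := by
    rw [div_mul_eq_mul_div, div_le_iff₀ hd0']
    nlinarith
  have hδm : (δ + s) * m ≤ k / 4 := by
    have : (δ + s) * m = 2 * (s * m) + (S + k * m) / (d : ℝ) * m := by rw [hδ]; ring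
    rw [this, hsm]
    linarith
  have hδe : δ ≤ e := by
    have h1 : δ * m ≤ k / 4 := by nlinarith
    have h2 : δ * (k : ℝ) ^ 2 ≤ δ * m := mul_le_mul_of_nonneg_left hmk hδ0
    have h3 : δ ≤ 1 / (2 * (k : ℝ)) := by
      rw [le_div_iff₀ (by positivity)]
      have h4 : δ * (k : ℝ) * k ≤ 1 / 4 * k := by nlinarith
      have h5 : δ * (k : ℝ) ≤ 1 / 4 := le_of_mul_le_mul_right h4 (by linarith)
      linarith
    linarith
  set t : ℝ := 1 - e + δ with ht
  have ht0 : 0 ≤ t := by linarith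
  have ht1 : t ≤ 1 := by linarith
  have hX : ((R : ℝ) ^ (s + 1 - t)) ^ d * (R : ℝ) ^ S ≤ E.card * (R : ℝ) ^ (-(k * m)) := by
    apply le_of_eq
    rw [hed, ← Real.rpow_natCast (x := (R : ℝ) ^ (s + 1 - t)), ← Real.rpow_mul hRpos.le,
      ← Real.rpow_natCast (x := (R : ℝ)) (n := S), ← Real.rpow_add hRpos, ← Real.rpow_add hRpos]
    congr 1
    have h1 : (S + k * m) / (d : ℝ) * d = S + k * m := by field_simp
    have h2 : (s + 1 - t) * d = e * d - (S + k * m) / (d : ℝ) * d := by rw [ht, hδ]; ring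
    rw [h2, h1]
    ring
  set V : ℝ := C * (R : ℝ) ^ (-(k : ℝ) + 2 * t + 2 * s) with hV
  have hV0 : 0 ≤ V := by positivity
  have hvol : volume (Set.Icc (0 : ℝ) 1 ∩ {α | rich k R s t α}) ≤ ENNReal.ofReal V := by
    refine (hC0 R t (by omega) ht0 ht1).trans (ENNReal.ofReal_le_ofReal ?_)
    rw [hV]
    gcongr
  obtain ⟨T, hT, hT1, hT2⟩ := hull (l := l) _ V hV0 hvol
  have hcpos : 0 ≤ (E.card : ℝ) ^ (l + 1) * (R : ℝ) ^ d :=
    mul_nonneg (pow_nonneg hEpos.le _) (pow_nonneg hRpos.le _)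
  have h2pos : (0 : ℝ) ≤ (2 ^ (d + S) + 1) * (R : ℝ) ^ (-(k * m)) :=
    mul_nonneg (add_nonneg (pow_nonneg zero_le_two _) zero_le_one) (Real.rpow_nonneg hRpos.le _)
  have hmain := integ (Fintype.piFinset (fun _ : Fin (l + 1) => E))
    (fun y α => ∏ ν, ‖Wv k R l y α ν‖)
    (fun y _ => continuous_finsetProd _ fun ν _ => (cont_Wv k R l y ν).norm) T hT (V ^ l)
    ((E.card : ℝ) ^ (l + 1) * (R : ℝ) ^ d)
    ((E.card : ℝ) ^ (l + 1) * (R : ℝ) ^ d * ((2 ^ (d + S) + 1) * (R : ℝ) ^ (-(k * m))))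
    (pow_nonneg hV0 _) hT2 hcpos
    (fun α _ => (triv_bound α).trans (le_add_of_nonneg_right (mul_nonneg hcpos h2pos)))
    (by
      intro α hα hαT
      have hex : ∃ i, ¬ rich k R s t (α i) := by
        by_contra hcon
        push Not at hcon
        exact hαT (hT1 α hα hcon)
      obtain ⟨i₀, hi₀⟩ := hex
      refine point_bound hPR (by omega) hs0.le ht1 hσ0 hE α i₀ hi₀ ?_ hqS hX
      intro y ν hy
      have := hR1 R hRR1 l d y α ν hy
      rwa [hσs] at this)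
  have hcoin : (coin k R l E : ℝ) ≤ ∑ y ∈ Fintype.piFinset (fun _ : Fin (l + 1) => E),
      ∫ α in Set.pi Set.univ (fun _ : Fin l => Set.Icc (0 : ℝ) 1), ∏ ν, ‖Wv k R l y α ν‖ := by
    unfold coin
    push_cast
    exact Finset.sum_le_sum fun y _ => hINT k R l d y
  refine hcoin.trans (hmain.trans ?_)
  have hgoal : (E.card : ℝ) ^ (((l : ℝ) + 1) * (1 - (k : ℝ) / d)) =
      (E.card : ℝ) ^ (l + 1) * (R : ℝ) ^ (-(k * m * e)) := by
    have h1 : ((l : ℝ) + 1) * (1 - (k : ℝ) / d) = ((l + 1 : ℕ) : ℝ) + (-(m * k / d)) := by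
      push_cast; rw [hm]; ring
    rw [h1, Real.rpow_add hEpos, Real.rpow_natCast]
    congr 1
    rw [hed, ← Real.rpow_mul hRpos.le]
    congr 1
    field_simp
  rw [hgoal]
  have hA : V ^ l ≤ 1 / 2 * (R : ℝ) ^ (-(k * m * e)) := by
    have h1 : V ^ l = C ^ l * (R : ℝ) ^ (-((k - 2 * (1 - e + δ) - 2 * s) * (m - 1))) := by
      rw [hV, mul_pow, ← Real.rpow_natCast (x := (R : ℝ) ^ _) (n := l), ← Real.rpow_mul hRpos.le]
      congr 2
      rw [ht, hm]; ring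
    have h2 := expo hk3 hm1 hκ hmκ hδm (by linarith) he2
    have h3 : (R : ℝ) ^ ((k : ℝ) / 2) ≤
        (R : ℝ) ^ ((k - 2 * (1 - e + δ) - 2 * s) * (m - 1) - k * m * e) :=
      Real.rpow_le_rpow_of_exponent_le hRone h2
    have h4 : 2 * C ^ l ≤ (R : ℝ) ^ ((k - 2 * (1 - e + δ) - 2 * s) * (m - 1) - k * m * e) :=
      hv2.trans h3
    have h5 : (R : ℝ) ^ (-(k * m * e)) =
        (R : ℝ) ^ ((k - 2 * (1 - e + δ) - 2 * s) * (m - 1) - k * m * e) *
          (R : ℝ) ^ (-((k - 2 * (1 - e + δ) - 2 * s) * (m - 1))) := by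
      rw [← Real.rpow_add hRpos]; congr 1; ring
    rw [h1, h5]
    have h6 : 0 ≤ (R : ℝ) ^ (-((k - 2 * (1 - e + δ) - 2 * s) * (m - 1))) := by positivity
    have h7 := mul_le_mul_of_nonneg_right h4 h6
    linarith
  have hB : (2 ^ (d + S) + 1) * (R : ℝ) ^ (-(k * m)) ≤ 1 / 2 * (R : ℝ) ^ (-(k * m * e)) := by
    have h3 : (R : ℝ) ^ (k * m * κ) ≤ (R : ℝ) ^ (k * m * (1 - e)) := by
      apply Real.rpow_le_rpow_of_exponent_le hRone
      have : 0 ≤ k * m := by positivity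
      nlinarith
    have h4 := hv1.trans h3
    have h5 : (R : ℝ) ^ (-(k * m * e)) = (R : ℝ) ^ (k * m * (1 - e)) * (R : ℝ) ^ (-(k * m)) := by
      rw [← Real.rpow_add hRpos]; congr 1; ring
    rw [h5]
    have h6 : 0 ≤ (R : ℝ) ^ (-(k * m)) := by positivity
    have h7 := mul_le_mul_of_nonneg_right h4 h6
    linarith
  have hc := hcpos
  calc (E.card : ℝ) ^ (l + 1) * (R : ℝ) ^ d * V ^ l +
        (E.card : ℝ) ^ (l + 1) * (R : ℝ) ^ d * ((2 ^ (d + S) + 1) * (R : ℝ) ^ (-(k * m)))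
      ≤ (E.card : ℝ) ^ (l + 1) * (R : ℝ) ^ d * (1 / 2 * (R : ℝ) ^ (-(k * m * e))) +
        (E.card : ℝ) ^ (l + 1) * (R : ℝ) ^ d * (1 / 2 * (R : ℝ) ^ (-(k * m * e))) :=
        add_le_add (mul_le_mul_of_nonneg_left hA hc) (mul_le_mul_of_nonneg_left hB hc)
    _ = (R : ℝ) ^ d * ((E.card : ℝ) ^ (l + 1) * (R : ℝ) ^ (-(k * m * e))) := by ring

end Pool.Agent.Helper42.KS.PkBG
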